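import Mathlib

set_option autoImplicit false
open Finset

namespace Pool.Agent.Results.MP_fd05bb_co.Dickson

def IsNearfield {N : Type} [AddCommGroup N] (m : N → N → N) : Prop :=
  (∀ x y, x ≠ 0 → y ≠ 0 → m x y ≠ 0) ∧ (∀ x y z, m (m x y) z = m x (m y z)) ∧
  (∃ e, e ≠ 0 ∧ (∀ x, m e x = x ∧ m x e = x) ∧ ∀ x, x ≠ 0 → ∃ y, y ≠ 0 ∧ m x y = e ∧ m y x = e) ∧
  (∀ x, m x 0 = 0) ∧ ∀ x y z, m (x + y) z = m x z + m y z

def IsSub {N : Type} [AddCommGroup N] (m : N → N → N) (S : Finset N) : Prop :=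
  0 ∉ S ∧ S.Nonempty ∧ (∀ x ∈ S, ∀ y ∈ S, m x y ∈ S) ∧ ∀ x ∈ S, ∀ y ∈ S, ∃ z ∈ S, m x z = y

def Blocks {N : Type} [AddCommGroup N] (m : N → N → N) (S G : Finset N) : Set (Set N) :=
  {B | ∃ s ∈ S, ∃ a, B = (fun x => m x s + a) '' (G : Set N)}

private def K : Type := ZMod 7 × ZMod 7 × ZMod 7

private instance : DecidableEq K := inferInstanceAs (DecidableEq (ZMod 7 × ZMod 7 × ZMod 7))
private instance : Fintype K := inferInstanceAs (Fintype (ZMod 7 × ZMod 7 × ZMod 7))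
private instance : AddCommGroup K := inferInstanceAs (AddCommGroup (ZMod 7 × ZMod 7 × ZMod 7))

private def mu (x y : K) : K :=
  (x.1 * y.1 + 2 * (x.2.1 * y.2.2 + x.2.2 * y.2.1), x.1 * y.2.1 + x.2.1 * y.1 + 2 * x.2.2 * y.2.2,
    x.1 * y.2.2 + x.2.1 * y.2.1 + x.2.2 * y.1)

private def k (a b c : ZMod 7) : K := (a, b, c)

private theorem kext {x y : K} (h1 : x.1 = y.1) (h2 : x.2.1 = y.2.1) (h3 : x.2.2 = y.2.2) : x = y :=
  Prod.ext h1 (Prod.ext h2 h3)

private theorem a1 (x y : K) : (x + y).1 = x.1 + y.1 := rfl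
private theorem a2 (x y : K) : (x + y).2.1 = x.2.1 + y.2.1 := rfl
private theorem a3 (x y : K) : (x + y).2.2 = x.2.2 + y.2.2 := rfl
private theorem z1 : (0 : K).1 = 0 := rfl
private theorem z2 : (0 : K).2.1 = 0 := rfl
private theorem z3 : (0 : K).2.2 = 0 := rfl

private instance : CommRing K :=
  { (inferInstance : AddCommGroup K) with
    mul := mu
    one := k 1 0 0
    mul_assoc := fun x y z => by
      show mu (mu x y) z = mu x (mu y z)
      apply kext <;> simp only [mu] <;> ring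
    one_mul := fun x => by
      show mu (k 1 0 0) x = x
      apply kext <;> simp only [mu, k] <;> ring
    mul_one := fun x => by
      show mu x (k 1 0 0) = x
      apply kext <;> simp only [mu, k] <;> ring
    zero_mul := fun x => by
      show mu 0 x = 0
      apply kext <;> simp only [mu, z1, z2, z3] <;> ring
    mul_zero := fun x => by
      show mu x 0 = 0
      apply kext <;> simp only [mu, z1, z2, z3] <;> ring
    left_distrib := fun x y z => by
      show mu x (y + z) = mu x y + mu x z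
      apply kext <;> simp only [mu, a1, a2, a3] <;> ring
    right_distrib := fun x y z => by
      show mu (x + y) z = mu x z + mu y z
      apply kext <;> simp only [mu, a1, a2, a3] <;> ring
    mul_comm := fun x y => by
      show mu x y = mu y x
      apply kext <;> simp only [mu] <;> ring }

private def nr (x : K) : ZMod 7 :=
  x.1 * x.1 * x.1 + 2 * (x.2.1 * x.2.1 * x.2.1) + 4 * (x.2.2 * x.2.2 * x.2.2) - 6 * x.1 * x.2.1 * x.2.2

private def sg (w : ZMod 7) (x : K) : K := (x.1, w * x.2.1, w * w * x.2.2)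

private def iv (x : K) : K :=
  mu (x.1 * x.1 - 2 * x.2.1 * x.2.2, 2 * x.2.2 * x.2.2 - x.1 * x.2.1, x.2.1 * x.2.1 - x.1 * x.2.2)
    (k (nr x ^ 5) 0 0)

private def m (x y : K) : K := mu (sg (nr y * nr y) x) y

private theorem nmul (x y : K) : nr (mu x y) = nr x * nr y := by simp only [nr, mu]; ring

private theorem n0 : ∀ x : K, x ≠ 0 → nr x ≠ 0 ∧ mu x (iv x) = k 1 0 0 ∧
    m x (iv (sg (nr x ^ 4) x)) = k 1 0 0 ∧ m (iv (sg (nr x ^ 4) x)) x = k 1 0 0 := by decide +kernel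

private theorem w3 : ∀ n : ZMod 7, n ≠ 0 → (n * n) ^ 3 = 1 := by decide

private theorem nsg (w : ZMod 7) (h : w ^ 3 = 1) (x : K) : nr (sg w x) = nr x := by
  simp only [nr, sg]
  linear_combination (2 * x.2.1 ^ 3 + 4 * (w ^ 3 + 1) * x.2.2 ^ 3 - 6 * x.1 * x.2.1 * x.2.2) * h

private theorem m0 (x : K) : m x 0 = 0 := mul_zero (sg _ x)

private theorem nm (x y : K) : nr (m x y) = nr x * nr y := by
  by_cases h : y = 0
  · rw [h, m0, show nr 0 = 0 by decide, mul_zero]
  · rw [m, nmul, nsg _ (w3 _ (n0 y h).1)]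

private noncomputable instance : Field K :=
  (show IsField K from ⟨⟨0, 1, by decide⟩, mul_comm, fun {x} h => ⟨iv x, (n0 x h).2.1⟩⟩).toField

private theorem nz : ∀ a b : ZMod 7, a ≠ 0 → b ≠ 0 → 0 ≠ a * b := by decide

private theorem nf : IsNearfield m := by
  refine ⟨fun x y hx hy h => ?_, fun x y z => ?_, ⟨k 1 0 0, by decide, by decide +kernel,
    fun x h => ⟨_, fun e => ?_, (n0 x h).2.2⟩⟩, m0, fun x y z => ?_⟩
  · have := nm x y
    rw [h, show nr 0 = 0 by decide] at this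
    exact nz _ _ (n0 x hx).1 (n0 y hy).1 this
  · by_cases h : z = 0
    · simp only [h, m0]
    · have h3 := w3 _ (n0 z h).1
      rw [m, m, m, nm, m, show nr y * nr z * (nr y * nr z) = nr y * nr y * (nr z * nr z) by ring]
      generalize nr z * nr z = w at *
      generalize nr y * nr y = v
      have e : sg w (mu (sg v x) y) = mu (sg (v * w) x) (sg w y) := by
        apply kext <;> simp only [mu, sg]
        · linear_combination (-2 * (v * x.2.1 * y.2.2 + v * v * x.2.2 * y.2.1)) * h3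
        · linear_combination (-2 * w * v * v * x.2.2 * y.2.2) * h3
        · ring
      rw [e]
      exact mul_assoc (G := K) _ _ _
  · have := (n0 x h).2.2.1
    rw [e, m0] at this
    exact absurd this (by decide)
  · have e (w : ZMod 7) : sg w (x + y) = sg w x + sg w y := by
      apply kext <;> simp only [sg, a1, a2, a3] <;> ring
    rw [m, e]
    exact add_mul (R := K) _ _ _

private def S0 : Finset K := univ.filter fun x => nr x ^ 3 = 1

private def G0 : Finset K :=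
  {k 1 0 0, k 2 0 0, k 3 1 2, k 3 5 1, k 4 0 0, k 5 4 1, k 5 6 4, k 6 2 4, k 6 3 2}

private def R : List K :=
  [k 1 0 0, k 2 0 0, k 4 0 0, k 0 1 0, k 0 2 0, k 0 4 0, k 0 0 1, k 0 0 2, k 0 0 4]

private theorem r1 : ∀ y : K, mu y (mu y y) = k 1 0 0 → y = k 1 0 0 ∨ y = k 2 0 0 ∨ y = k 4 0 0 := by
  decide +kernel

private theorem r2 : ∀ y : K, (mu y (mu y y) = k 1 0 0 ∨ mu y (mu y y) = k 2 0 0 ∨
    mu y (mu y y) = k 4 0 0) → y ∈ R := by decide +kernel

private theorem r3 : ∀ x ∈ R, ∀ y ∈ R, x = k 1 0 0 ∨ x = y ∨ nr (x - 1) ^ 3 ≠ nr (y - 1) ^ 3 ∨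
    ∀ x' ∈ R, ∀ y' ∈ R, x' = k 1 0 0 ∨ x' = x ∨ mu (x - 1) (y' - 1) ≠ mu (x' - 1) (y - 1) := by
  decide +kernel

private theorem r4 (x : K) (h : x ^ 9 = 1) : x ∈ R :=
  r2 x (r1 _ (show (x * (x * x)) * ((x * (x * x)) * (x * (x * x))) = 1 by rw [← h]; ring))

private theorem np (x : K) (n : ℕ) : nr (x ^ n) = nr x ^ n := by
  induction n with
  | zero => rw [pow_zero, pow_zero]; decide
  | succ n ih => rw [pow_succ, pow_succ, ← ih]; exact nmul _ _

private theorem keyK (x x' y y' u : K) (h1 : x ^ 9 = 1) (h2 : x' ^ 9 = 1) (h3 : y ^ 9 = 1)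
    (h4 : y' ^ 9 = 1) (h5 : u ^ 171 = 1) (n1 : x ≠ 1) (n2 : x' ≠ 1) (n3 : x' ≠ x)
    (e1 : x - 1 = (y - 1) * u) (e2 : x' - 1 = (y' - 1) * u) : u = 1 := by
  have hu : nr u ^ 3 = 1 := by
    have := np u 171
    rw [h5, show nr 1 = 1 by decide] at this
    exact (show ∀ n : ZMod 7, 1 = n ^ 171 → n ^ 3 = 1 by decide +kernel) _ this
  rcases r3 x (r4 x h1) y (r4 y h3) with h | h | h | h
  · exact absurd h n1
  · rw [← h] at e1
    exact (mul_left_cancel₀ (sub_ne_zero.2 n1) (e1.symm.trans (mul_one _).symm))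
  · refine absurd ?_ h
    rw [e1, show nr ((y - 1) * u) = _ from nmul _ _, mul_pow, hu, mul_one]
  · rcases h x' (r4 x' h2) y' (r4 y' h4) with h | h | h
    · exact absurd h n2
    · exact absurd h n3
    · refine absurd ?_ h
      show (x - 1) * (y' - 1) = (x' - 1) * (y - 1)
      rw [e1, e2]; ring

private theorem lag {F : Type} [Field F] (S : Finset F) (h : IsSub (· * ·) S) (x : F) (hx : x ∈ S) :
    x ≠ 0 ∧ x ^ S.card = 1 := by
  classical
  have n : ∀ y ∈ S, y ≠ 0 := fun y hy e => h.1 (e ▸ hy)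
  refine ⟨n x hx, mul_right_cancel₀ (prod_ne_zero_iff.2 n) ?_⟩
  rw [one_mul, ← prod_const, ← prod_mul_distrib]
  exact prod_nbij (x * ·) (fun y hy => h.2.2.1 x hx y hy)
    (fun y _ z _ e => mul_left_cancel₀ (n x hx) e)
    (fun y hy => by obtain ⟨z, hz, e⟩ := h.2.2.2 x hx y hy; exact ⟨z, hz, e⟩) (fun _ _ => rfl)

private theorem keyF {F : Type} [Field F] [Fintype F] (c : Fintype.card F = Fintype.card K)
    (S G : Finset F) (hS : IsSub (· * ·) S) (cS : S.card = 171) (hG : IsSub (· * ·) G)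
    (cG : G.card = 9) (B C : Set F) (hB : B ∈ Blocks (· * ·) S G) (hC : C ∈ Blocks (· * ·) S G)
    (p q r : F) (n1 : q ≠ p) (n2 : r ≠ p) (n3 : r ≠ q) (p1 : p ∈ B) (p2 : p ∈ C) (q1 : q ∈ B)
    (q2 : q ∈ C) (r1 : r ∈ B) (r2 : r ∈ C) : B ⊆ C := by
  obtain ⟨s, hs, a, rfl⟩ := hB
  obtain ⟨t, ht, b, rfl⟩ := hC
  obtain ⟨x1, g1, rfl⟩ := p1
  obtain ⟨x2, g2, rfl⟩ := q1
  obtain ⟨x3, g3, rfl⟩ := r1
  obtain ⟨y1, k1, e1⟩ := p2
  obtain ⟨y2, k2, e2⟩ := q2
  obtain ⟨y3, k3, e3⟩ := r2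
  simp only at e1 e2 e3 n1 n2 n3
  have L := lag G hG
  have M := lag S hS
  rw [cG] at L
  rw [cS] at M
  have φ := FiniteField.ringEquivOfCardEq c
  have hx := (L x1 g1).1
  have hy := (L y1 k1).1
  have hs0 := (M s hs).1
  have P : ∀ u ∈ G, ∀ v ∈ G, φ (u / v) ^ 9 = 1 := fun u hu v hv => by
    rw [← map_pow, div_pow, (L u hu).2, (L v hv).2, div_one, map_one]
  have u1 : φ (y1 * t / (x1 * s)) = 1 := by
    refine keyK (φ (x2 / x1)) (φ (x3 / x1)) (φ (y2 / y1)) (φ (y3 / y1)) _ (P _ g2 _ g1) (P _ g3 _ g1)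
      (P _ k2 _ k1) (P _ k3 _ k1) ?_ ?_ ?_ ?_ ?_ ?_
    · rw [← map_pow, div_pow, mul_pow, mul_pow, (M s hs).2, (M t ht).2,
        show 171 = 9 * 19 from rfl, pow_mul, pow_mul, (L _ g1).2, (L _ k1).2]
      simp
    · rw [Ne, map_eq_one_iff _ φ.injective, div_eq_one_iff_eq hx]
      rintro rfl
      exact n1 rfl
    · rw [Ne, map_eq_one_iff _ φ.injective, div_eq_one_iff_eq hx]
      rintro rfl
      exact n2 rfl
    · rw [Ne, φ.injective.eq_iff, div_left_inj' hx]
      rintro rfl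
      exact n3 rfl
    · rw [← map_one φ, ← map_sub, ← map_sub, ← map_mul]
      congr 1
      field_simp
      linear_combination e1 - e2
    · rw [← map_one φ, ← map_sub, ← map_sub, ← map_mul]
      congr 1
      field_simp
      linear_combination e1 - e3
  rw [map_eq_one_iff _ φ.injective, div_eq_one_iff_eq (mul_ne_zero hx hs0)] at u1
  rintro _ ⟨g, hg, rfl⟩
  obtain ⟨z, hz, e⟩ := hG.2.2.2 x1 g1 g hg
  refine ⟨y1 * z, hG.2.2.1 _ k1 _ hz, ?_⟩
  simp only at e ⊢
  rw [← e]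
  linear_combination (z - 1) * u1 + e1

theorem result : ∃ (N : Type) (_ : AddCommGroup N) (_ : Fintype N) (m : N → N → N)
    (S G : Finset N), IsNearfield m ∧ Fintype.card N % 4 = 3 ∧
      IsSub m S ∧ 2 * S.card + 1 = Fintype.card N ∧ IsSub m G ∧ G ⊆ S ∧ 1 < G.card ∧
      ∀ (F : Type) [Field F] [Fintype F] (S' G' : Finset F), Fintype.card F = Fintype.card N →
        IsSub (· * ·) S' → S'.card = S.card → IsSub (· * ·) G' → G'.card = G.card →
        ¬ ∃ e : N ≃ F, (fun B => e '' B) '' Blocks m S G = Blocks (· * ·) S' G' := by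
  have c1 : S0.card = 171 := by decide +kernel
  have c2 : G0.card = 9 := by decide +kernel
  have c3 : Fintype.card K = 343 := by decide +kernel
  have hS : ∀ x ∈ S0, ∀ y ∈ S0, m x y ∈ S0 := fun x hx y hy => by
    simp only [S0, mem_filter_univ] at *
    rw [nm, mul_pow, hx, hy, mul_one]
  refine ⟨K, inferInstance, inferInstance, m, S0, G0, nf, by rw [c3],
    ⟨by decide +kernel, ⟨k 1 0 0, by decide +kernel⟩, hS, fun x hx y hy => ?_⟩, by rw [c1, c3],
    ⟨by decide +kernel, ⟨k 1 0 0, by decide +kernel⟩, by decide +kernel, by decide +kernel⟩,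
    by decide +kernel, by rw [c2]; norm_num, ?_⟩
  · have h : x ≠ 0 := by
      rintro rfl
      exact absurd hx (by decide +kernel)
    have e := (n0 x h).2.2.1
    refine ⟨m (iv (sg (nr x ^ 4) x)) y, hS _ ?_ _ hy, ?_⟩
    · have := nm x (iv (sg (nr x ^ 4) x))
      simp only [S0, mem_filter_univ] at *
      rw [e, show nr (k 1 0 0) = 1 by decide] at this
      have h3 := congrArg (· ^ 3) this
      simp only [mul_pow, hx, one_mul, one_pow] at h3
      exact h3.symm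
    · rw [← nf.2.1, e]
      exact (show ∀ y : K, m (k 1 0 0) y = y by decide +kernel) y
  · rintro F _ _ S G c hS cS hG cG ⟨e, he⟩
    have A : ∀ s ∈ S0, ∀ a, e '' ((fun x => m x s + a) '' (G0 : Set K)) ∈ Blocks (· * ·) S G :=
      fun s hs a => he ▸ ⟨_, ⟨s, hs, a, rfl⟩, rfl⟩
    have B : ∀ s a x y, x ∈ G0 → m x s + a = y → e y ∈ e '' ((fun x => m x s + a) '' (G0 : Set K)) :=
      fun s a x y hx h => ⟨y, ⟨x, hx, h⟩, rfl⟩
    have := keyF c S G hS (cS.trans c1) hG (cG.trans c2) _ _ (A (k 1 0 0) (by decide +kernel) 0)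
      (A (k 0 0 1) (by decide +kernel) (k 3 5 6)) (e (k 5 6 4)) (e (k 6 2 4)) (e (k 3 5 1))
      (e.injective.ne (by decide)) (e.injective.ne (by decide)) (e.injective.ne (by decide))
      (B _ _ (k 5 6 4) _ (by decide) (by decide)) (B _ _ (k 5 4 1) _ (by decide) (by decide))
      (B _ _ (k 6 2 4) _ (by decide) (by decide)) (B _ _ (k 5 6 4) _ (by decide) (by decide))
      (B _ _ (k 3 5 1) _ (by decide) (by decide)) (B _ _ (k 2 0 0) _ (by decide) (by decide))
      (B _ _ (k 1 0 0) (k 1 0 0) (by decide) (by decide))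
    obtain ⟨_, ⟨x, hx, rfl⟩, h⟩ := this
    exact (show ∀ x ∈ G0, m x (k 0 0 1) + k 3 5 6 ≠ k 1 0 0 by decide +kernel) x hx (e.injective h)

end Pool.Agent.Results.MP_fd05bb_co.Dickson
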